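import Pool.Agent.Y489.PH.Stm2
import Pool.Agent.Y485.HS.Loc

/-! Project PH: the Baire argument, first part. -/

set_option autoImplicit false

open MeasureTheory Set Metric Filter Topology
open scoped ENNReal NNReal

noncomputable section

namespace Pool.Agent.Y412.PH

open Pool.Agent.Y485.HS Pool.Agent.Y489.PH

theorem isOpen_triv {n : ℕ} {H : Type} [Group H] [TopologicalSpace H] (T : H → E n → E n) :
    IsOpen {x : E n | Triv T x} := by
  rw [isOpen_iff_eventually]
  rintro x ⟨K, hK, h⟩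
  filter_upwards [eventually_eventually_nhds.2 h] with y hy
  exact ⟨K, hK, hy⟩

theorem t_BA1 (hB : S_BAA) : S_BA1 := by
  intro n H _ _ _ _ _ _ T hT hP hex
  set Q0 : Set (E n) := {x | x ∈ ball (0 : E n) 1 ∧ ¬ Triv T x} with hQ0
  have hlc : IsLocallyClosed Q0 := by
    have h1 : IsLocallyClosed (ball (0 : E n) 1) := isOpen_ball.isLocallyClosed
    have h2 : IsLocallyClosed {x : E n | ¬ Triv T x} := by
      apply IsClosed.isLocallyClosed
      exact (isOpen_triv T).isClosed_compl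
    exact h1.inter h2
  have hl : LocallyCompactSpace Q0 := hlc.locallyCompactSpace
  obtain ⟨y0, hy0, hy0'⟩ := hex
  have hne : Nonempty Q0 := ⟨⟨y0, hy0, hy0'⟩⟩
  have hsub : ∀ q : Q0, (q : E n) ∈ BB n := by
    intro q
    have := q.2.1
    rw [mem_ball_zero_iff] at this
    rw [mem_BB]
    linarith
  set A : ℕ → Set (H × Q0) := fun m => {p | ∀ z ∈ BB n, dist z (p.2 : E n) < 1 / ((m : ℝ) + 1) →
    dist (T p.1 z) (T p.1 (p.2 : E n)) ≤ m * dist z (p.2 : E n)} with hA
  have hAc : ∀ m, IsClosed (A m) := by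
    intro m
    have hcT : Continuous (fun p : H × Q0 => T p.1 (p.2 : E n)) := by
      have hc : Continuous (fun p : H × Q0 => (p.1, (p.2 : E n))) := by fun_prop
      exact hT.cont.comp_continuous hc (fun p => ⟨mem_univ _, hsub p.2⟩)
    have hrw : A m = ⋂ z ∈ BB n, ({p : H × Q0 | 1 / ((m : ℝ) + 1) ≤ dist z (p.2 : E n)} ∪
        {p : H × Q0 | dist (T p.1 z) (T p.1 (p.2 : E n)) ≤ m * dist z (p.2 : E n)}) := by
      ext p
      simp only [hA, mem_ofPred_eq, mem_iInter, mem_union]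
      refine forall₂_congr fun z _ => ?_
      constructor
      · intro h
        rcases le_or_gt (1 / ((m : ℝ) + 1)) (dist z (p.2 : E n)) with h1 | h1
        · exact Or.inl h1
        · exact Or.inr (h h1)
      · rintro (h | h) h1
        · exact absurd h1 (not_lt.2 h)
        · exact h
    rw [hrw]
    refine isClosed_biInter fun z hz => ?_
    have h1 : Continuous (fun p : H × Q0 => T p.1 z) := (hT.cont_left hz).comp continuous_fst
    refine IsClosed.union (isClosed_le (by fun_prop) (by fun_prop)) (isClosed_le ?_ (by fun_prop))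
    exact h1.dist hcT
  have hcount : ∀ h : H, {q : Q0 | ∀ m, (h, q) ∉ A m}.Countable := by
    intro h
    refine ((hP h).preimage (Subtype.val_injective : Function.Injective
      (Subtype.val : Q0 → E n))).mono ?_
    intro q hq
    refine ⟨?_, ?_⟩
    · have := q.2.1
      rw [mem_ball_zero_iff] at this ⊢
      linarith
    · rintro ⟨N, δ, hδ, hN⟩
      obtain ⟨m1, hm1⟩ := exists_nat_ge N
      obtain ⟨m2, hm2⟩ := exists_nat_one_div_lt hδ
      apply hq (max m1 m2)
      intro z hz hzq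
      have h1 : (1 : ℝ) / (((max m1 m2 : ℕ) : ℝ) + 1) ≤ 1 / ((m2 : ℝ) + 1) := by
        apply one_div_le_one_div_of_le (by positivity)
        have : (m2 : ℝ) ≤ ((max m1 m2 : ℕ) : ℝ) := by exact_mod_cast le_max_right _ _
        linarith
      have h2 : dist z (q : E n) < δ := by
        have h3 : dist z (q : E n) < 1 / (((max m1 m2 : ℕ) : ℝ) + 1) := hzq
        linarith
      have h4 := hN z hz h2
      have h5 : N ≤ ((max m1 m2 : ℕ) : ℝ) := by
        have : (m1 : ℝ) ≤ ((max m1 m2 : ℕ) : ℝ) := by exact_mod_cast le_max_left _ _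
        linarith
      exact h4.trans (mul_le_mul_of_nonneg_right h5 dist_nonneg)
  rcases hB H Q0 A hAc hcount with ⟨q, hq⟩ | ⟨m, V, W, hV, ⟨h0, hh0⟩, hW, ⟨q, hq⟩, hVW⟩
  · obtain ⟨O, hO, hOq⟩ := isOpen_induced_iff.1 hq
    have hqO : (q : E n) ∈ O ∩ ball (0 : E n) 1 := by
      refine ⟨?_, q.2.1⟩
      have : q ∈ Subtype.val ⁻¹' O := by rw [hOq]; exact mem_singleton q
      exact this
    obtain ⟨ρ, hρ, hρs⟩ := Metric.isOpen_iff.1 (hO.inter isOpen_ball) _ hqO
    refine ⟨q, q.2.1, q.2.2, ρ, hρ, fun x hx => (hρs hx).2, Or.inl ?_⟩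
    intro x hx hxq
    by_contra hxt
    have h1 : (⟨x, (hρs hx).2, hxt⟩ : Q0) ∈ Subtype.val ⁻¹' O := (hρs hx).1
    rw [hOq] at h1
    apply hxq
    have h2 := mem_singleton_iff.1 h1
    exact congrArg Subtype.val h2
  · obtain ⟨O, hO, hOq⟩ := isOpen_induced_iff.1 hW
    have hqO : (q : E n) ∈ O ∩ ball (0 : E n) 1 := by
      refine ⟨?_, q.2.1⟩
      have : q ∈ Subtype.val ⁻¹' O := by rw [hOq]; exact hq
      exact this
    obtain ⟨ρ, hρ, hρs⟩ := Metric.isOpen_iff.1 (hO.inter isOpen_ball) _ hqO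
    have hopen : IsOpen ((fun k => h0 * k) ⁻¹' V) := hV.preimage (continuous_const_mul h0)
    obtain ⟨K, hK⟩ := ProfiniteGrp.exist_openNormalSubgroup_sub_open_nhds_of_one hopen
      (by change h0 * 1 ∈ V; rw [mul_one]; exact hh0)
    refine ⟨q, q.2.1, q.2.2, ρ, hρ, fun x hx => (hρs hx).2, Or.inr ⟨h0, K.toSubgroup, m,
      K.toOpenSubgroup.isOpen, ?_⟩⟩
    intro k hk x hx hxt z hz hzx
    have h1 : (⟨x, (hρs hx).2, hxt⟩ : Q0) ∈ W := by
      rw [← hOq]
      exact (hρs hx).1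
    have h2 : h0 * k ∈ V := hK hk
    have h3 : (h0 * k, (⟨x, (hρs hx).2, hxt⟩ : Q0)) ∈ A m := hVW ⟨h2, h1⟩
    exact h3 z hz hzx

end Pool.Agent.Y412.PH
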